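import Mathlib

namespace Pool.Agent.NH73.CS

open Finset

variable {α : Type*} [DecidableEq α]

/-- all pairwise unions of members of two families -/
def UU (A B : Finset (Finset α)) : Finset (Finset α) :=
  Finset.image₂ (fun S T => S ∪ T) A B

lemma mem_UU {A B : Finset (Finset α)} {W : Finset α} :
    W ∈ UU A B ↔ ∃ S ∈ A, ∃ T ∈ B, S ∪ T = W := by
  simp [UU, Finset.mem_image₂]

lemma UU_comm (A B : Finset (Finset α)) : UU A B = UU B A := by
  ext W
  rw [mem_UU, mem_UU]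
  constructor
  · rintro ⟨S, hS, T, hT, h⟩
    exact ⟨T, hT, S, hS, by rw [← h, Finset.union_comm]⟩
  · rintro ⟨S, hS, T, hT, h⟩
    exact ⟨T, hT, S, hS, by rw [← h, Finset.union_comm]⟩

/-- closed under taking subsets -/
def Low (A : Finset (Finset α)) : Prop := ∀ ⦃S⦄, S ∈ A → ∀ ⦃S'⦄, S' ⊆ S → S' ∈ A

lemma disj_I {A B : Finset (Finset α)} (hA : Low A) (hB : Low B) :
    Disjoint (UU (A \ B) (B \ A)) (A ∪ B) := by
  rw [Finset.disjoint_left]
  intro W hW hW'
  obtain ⟨S, hS, T, hT, rfl⟩ := mem_UU.1 hW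
  rw [mem_sdiff] at hS hT
  rw [mem_union] at hW'
  rcases hW' with h | h
  · exact hT.2 (hA h subset_union_right)
  · exact hS.2 (hB h subset_union_left)

lemma Low.empty_mem {A : Finset (Finset α)} (hA : Low A) (h : A.Nonempty) : ∅ ∈ A := by
  obtain ⟨S, hS⟩ := h
  exact hA hS (empty_subset S)

lemma Low.pow_le {A : Finset (Finset α)} (hA : Low A) {S : Finset α} (hS : S ∈ A) :
    2 ^ S.card ≤ A.card := by
  rw [← card_powerset]
  apply card_le_card
  intro T hT
  exact hA hS (mem_powerset.1 hT)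

lemma two_pow_ineq {d x y : ℕ} (h : x + y = 2 * d + 1) : 3 * 2 ^ d ≤ 2 ^ x + 2 ^ y := by
  wlog hxy : x ≤ y generalizing x y
  · have := this (x := y) (y := x) (by omega) (by omega)
    omega
  have hx : x ≤ d := by omega
  obtain ⟨k, rfl⟩ := Nat.exists_eq_add_of_le hx
  have hy : y = x + 2 * k + 1 := by omega
  subst hy
  have hk : 1 ≤ 2 ^ k := Nat.one_le_two_pow
  have hP : 1 ≤ 2 ^ x := Nat.one_le_two_pow
  have e1 : 2 ^ (x + k) = 2 ^ x * 2 ^ k := pow_add _ _ _
  have e2 : 2 ^ (x + 2 * k + 1) = 2 ^ x * 2 ^ k * 2 ^ k * 2 := by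
    rw [pow_succ, pow_add, two_mul k, pow_add]; ring
  rw [e1, e2]
  generalize 2 ^ x = P at *
  generalize 2 ^ k = K at *
  obtain ⟨K', rfl⟩ := Nat.exists_eq_add_of_le hk
  nlinarith [Nat.zero_le (P * K' * K'), Nat.zero_le (P * K')]

/-- the product bound -/
lemma prod_ineq {d x y a b : ℕ} (h : x + y ≤ 2 * d + 1) (ha : a + 1 ≤ 2 ^ x)
    (hb : b + 1 ≤ 2 ^ y) : a * b + 3 * 2 ^ d ≤ 2 * (2 ^ d) ^ 2 + 1 := by
  obtain ⟨z, hz⟩ : ∃ z, x + z = 2 * d + 1 := ⟨2 * d + 1 - x, by omega⟩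
  have hyz : y ≤ z := by omega
  have hb' : b + 1 ≤ 2 ^ z := hb.trans (Nat.pow_le_pow_right (by norm_num) hyz)
  have h3 := two_pow_ineq hz
  have e : 2 ^ x * 2 ^ z = 2 * (2 ^ d) ^ 2 := by
    rw [← pow_add, hz, pow_succ, mul_comm 2 d, pow_mul]; ring
  generalize 2 ^ x = P at *
  generalize 2 ^ z = Q at *
  obtain ⟨P', rfl⟩ := Nat.exists_eq_add_of_le ha
  obtain ⟨Q', rfl⟩ := Nat.exists_eq_add_of_le hb'
  rw [← e]
  nlinarith [Nat.zero_le (a * Q'), Nat.zero_le (b * P'), Nat.zero_le (P' * Q')]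

lemma pair_le {A B : Finset (Finset α)} (hA : Low A) (hA0 : A.Nonempty) (hB : Low B)
    (hB0 : B.Nonempty) (hc : (A ∩ B).card ≤ 1) :
    Disjoint (A.biUnion id) (B.biUnion id) := by
  rw [Finset.disjoint_left]
  intro i hi hi'
  rw [mem_biUnion] at hi hi'
  obtain ⟨S, hS, hiS⟩ := hi
  obtain ⟨T, hT, hiT⟩ := hi'
  have h1 : {i} ∈ A ∩ B := mem_inter.2
    ⟨hA hS (singleton_subset_iff.2 hiS), hB hT (singleton_subset_iff.2 hiT)⟩
  have h2 : ∅ ∈ A ∩ B := mem_inter.2 ⟨hA.empty_mem hA0, hB.empty_mem hB0⟩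
  have h3 := Finset.card_le_one.1 hc _ h1 _ h2
  simp at h3

lemma sub_le {A B : Finset (Finset α)} (hB : Low B) (hB0 : B.Nonempty) :
    (A \ B).card + 1 ≤ 2 ^ (A.biUnion id).card := by
  rw [← card_powerset]
  have h0 : ∅ ∉ A \ B := by
    rw [mem_sdiff]
    rintro ⟨_, h⟩
    exact h (hB.empty_mem hB0)
  have h1 : insert ∅ (A \ B) ⊆ (A.biUnion id).powerset := by
    intro S hS
    rw [mem_insert] at hS
    rcases hS with rfl | hS
    · exact empty_mem_powerset _
    · rw [mem_powerset]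
      exact subset_biUnion_of_mem id (mem_sdiff.1 hS).1
  have h2 := card_le_card h1
  rwa [card_insert_of_notMem h0] at h2

variable [Fintype α]

/-- the case where the intersection of the two down-sets is trivial -/
lemma case_one {A B : Finset (Finset α)} (hA : Low A) (hA0 : A.Nonempty) (hB : Low B)
    (hB0 : B.Nonempty) (hc : (A ∩ B).card ≤ 1) {d : ℕ} (hn : Fintype.card α = 2 * d + 1) :
    (A \ B).card * (B \ A).card + 3 * 2 ^ d ≤ 2 * (2 ^ d) ^ 2 + 1 := by
  have h1 := pair_le hA hA0 hB hB0 hc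
  have h2 : (A.biUnion id).card + (B.biUnion id).card ≤ 2 * d + 1 := by
    rw [← card_union_of_disjoint h1, ← hn]
    exact card_le_univ _
  exact prod_ineq h2 (sub_le hB hB0) (sub_le hA hA0)

lemma univ_case {A B : Finset (Finset α)} (hA : Low A) (hB : Low B)
    (h : univ ∈ UU A B) {d : ℕ} (hn : Fintype.card α = 2 * d + 1) :
    3 * 2 ^ d ≤ (A ∪ B).card + 1 := by
  obtain ⟨S, hS, T, hT, hST⟩ := mem_UU.1 h
  have hT' : Sᶜ ∈ B := by
    apply hB hT
    intro i hi
    have : i ∈ S ∪ T := by rw [hST]; exact mem_univ i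
    rw [mem_union] at this
    rw [mem_compl] at hi
    tauto
  have h1 : S.powerset ∪ Sᶜ.powerset ⊆ A ∪ B := by
    apply union_subset_union
    · intro X hX; exact hA hS (mem_powerset.1 hX)
    · intro X hX; exact hB hT' (mem_powerset.1 hX)
  have h2 : S.powerset ∩ Sᶜ.powerset ⊆ {∅} := by
    intro X hX
    rw [mem_inter, mem_powerset, mem_powerset] at hX
    rw [mem_singleton]
    have := Finset.subset_inter hX.1 hX.2
    rw [Finset.inter_compl] at this
    exact subset_empty.1 this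
  have h3 := card_le_card h1
  have h4 := card_le_card h2
  have h5 := card_union_add_card_inter S.powerset Sᶜ.powerset
  rw [card_singleton] at h4
  rw [card_powerset, card_powerset] at h5
  have h6 : S.card + Sᶜ.card = 2 * d + 1 := by rw [card_add_card_compl, hn]
  have h7 := two_pow_ineq h6
  omega

end Pool.Agent.NH73.CS
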