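import Pool.Agent.NH73.CS.Basic

namespace Pool.Agent.NH73.CS

open Finset

variable {α : Type*} [DecidableEq α]

/-- the number of intersecting pairs in the product of two families -/
def meetPairs (X Y : Finset (Finset α)) : Finset (Finset α × Finset α) :=
  (X ×ˢ Y).filter (fun p => ¬ Disjoint p.1 p.2)

lemma meetPairs_comm (X Y : Finset (Finset α)) :
    (meetPairs X Y).card = (meetPairs Y X).card := by
  apply Finset.card_bij (fun p _ => (p.2, p.1))
  · intro p hp
    simp only [meetPairs, mem_filter, mem_product] at hp ⊢
    exact ⟨⟨hp.1.2, hp.1.1⟩, fun h => hp.2 h.symm⟩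
  · intro p _ p' _ h
    simp only [Prod.mk.injEq] at h
    exact Prod.ext h.2 h.1
  · intro p hp
    simp only [meetPairs, mem_filter, mem_product] at hp
    refine ⟨(p.2, p.1), ?_, rfl⟩
    simp only [meetPairs, mem_filter, mem_product]
    exact ⟨⟨hp.1.2, hp.1.1⟩, fun h => hp.2 h.symm⟩

lemma N_left {A B : Finset (Finset α)} (hA : Low A) (hA0 : A.Nonempty) (hB : Low B)
    (hB0 : B.Nonempty) :
    (UU (A \ B) (B \ A)).card + (meetPairs (A \ B) (B \ A)).card ≤
      (A \ B).card * (B \ A).card + (A \ B).card * ((A ∩ B).card - 1) := by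
  have h1 : UU (A \ B) (B \ A) ⊆
      (((A \ B) ×ˢ (B \ A)).filter (fun p => Disjoint p.1 p.2)).image (fun p => p.1 ∪ p.2) ∪
      UU (A \ B) ((A ∩ B).erase ∅) := by
    intro W hW
    obtain ⟨S, hS, T, hT, rfl⟩ := mem_UU.1 hW
    rw [mem_union]
    have hSB := mem_sdiff.1 hS
    have hTB := mem_sdiff.1 hT
    have hTS : T \ S ∈ B := hB hTB.1 sdiff_subset
    by_cases h : T \ S ∈ A
    · right
      rw [mem_UU]
      refine ⟨S, hS, T \ S, ?_, by rw [union_sdiff_self_eq_union]⟩
      rw [mem_erase, mem_inter]
      refine ⟨?_, h, hTS⟩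
      intro h0
      rw [sdiff_eq_empty_iff_subset] at h0
      exact hTB.2 (hA hSB.1 h0)
    · left
      rw [mem_image]
      refine ⟨(S, T \ S), ?_, by simp⟩
      rw [mem_filter, mem_product]
      exact ⟨⟨hS, mem_sdiff.2 ⟨hTS, h⟩⟩, disjoint_sdiff⟩
  have h2 := card_le_card h1
  have h3 := card_union_le
    ((((A \ B) ×ˢ (B \ A)).filter (fun p => Disjoint p.1 p.2)).image (fun p => p.1 ∪ p.2))
    (UU (A \ B) ((A ∩ B).erase ∅))
  have h4 : ((((A \ B) ×ˢ (B \ A)).filter (fun p => Disjoint p.1 p.2)).image
      (fun p => p.1 ∪ p.2)).card ≤ (((A \ B) ×ˢ (B \ A)).filter (fun p => Disjoint p.1 p.2)).card :=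
    card_image_le
  have h5 : (UU (A \ B) ((A ∩ B).erase ∅)).card ≤ (A \ B).card * ((A ∩ B).card - 1) := by
    refine (card_image₂_le _ _ _).trans ?_
    apply Nat.mul_le_mul_left
    rw [card_erase_of_mem (mem_inter.2 ⟨hA.empty_mem hA0, hB.empty_mem hB0⟩)]
  have h6 : (((A \ B) ×ˢ (B \ A)).filter (fun p => Disjoint p.1 p.2)).card +
      (meetPairs (A \ B) (B \ A)).card = (A \ B).card * (B \ A).card := by
    rw [← card_product, meetPairs]
    exact card_filter_add_card_filter_not _
  omega

lemma N_right {A B : Finset (Finset α)} (hA : Low A) (hA0 : A.Nonempty) (hB : Low B)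
    (hB0 : B.Nonempty) :
    (UU (A \ B) (B \ A)).card + (meetPairs (A \ B) (B \ A)).card ≤
      (A \ B).card * (B \ A).card + (B \ A).card * ((A ∩ B).card - 1) := by
  have h := N_left hB hB0 hA hA0
  rw [UU_comm, meetPairs_comm, mul_comm (B \ A).card, inter_comm B A] at h
  exact h

/-- members that contain a point -/
def At (X : Finset (Finset α)) (i : α) : Finset (Finset α) := X.filter (fun S => i ∈ S)

/-- members that avoid a point -/
def Av (X : Finset (Finset α)) (i : α) : Finset (Finset α) := X.filter (fun S => i ∉ S)

lemma At_add_Av (X : Finset (Finset α)) (i : α) : (At X i).card + (Av X i).card = X.card :=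
  card_filter_add_card_filter_not _

lemma Low.At_le {A : Finset (Finset α)} (hA : Low A) (i : α) :
    (At A i).card ≤ (Av A i).card := by
  apply card_le_card_of_injOn (fun S => S.erase i)
  · intro S hS
    simp only [At, Av, coe_filter, Set.mem_ofPred_eq, mem_erase, not_true_eq_false, ne_eq,
      false_and, not_false_eq_true, and_true] at hS ⊢
    exact hA hS.1 (erase_subset _ _)
  · intro S hS T hT h
    simp only [At, coe_filter, Set.mem_ofPred_eq] at hS hT
    simp only at h
    rw [← insert_erase hS.2, ← insert_erase hT.2, h]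

lemma Low.union {A B : Finset (Finset α)} (hA : Low A) (hB : Low B) : Low (A ∪ B) := by
  intro S hS T hT
  rw [mem_union] at hS ⊢
  rcases hS with h | h
  · exact Or.inl (hA h hT)
  · exact Or.inr (hB h hT)

lemma At_bound {A B : Finset (Finset α)} (hA : Low A) (hB : Low B) (i : α) :
    4 * (At (UU (A \ B) (B \ A)) i).card ≤
      4 * ((At (A \ B) i).card * (Av (B \ A) i).card +
        (Av (A \ B) i).card * (At (B \ A) i).card) + (A ∩ B).card ^ 2 := by
  set CA := (A ∩ B).filter (fun C => insert i C ∈ A \ B) with hCA
  set CB := (A ∩ B).filter (fun C => insert i C ∈ B \ A) with hCB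
  have h1 : At (UU (A \ B) (B \ A)) i ⊆
      (UU (At (A \ B) i) (Av (B \ A) i) ∪ UU (Av (A \ B) i) (At (B \ A) i)) ∪
        (UU CA CB).image (fun W => insert i W) := by
    intro W hW
    simp only [At, mem_filter] at hW
    obtain ⟨hW, hiW⟩ := hW
    obtain ⟨S, hS, T, hT, rfl⟩ := mem_UU.1 hW
    have hSB := mem_sdiff.1 hS
    have hTB := mem_sdiff.1 hT
    rw [mem_union, mem_union]
    by_cases hiS : i ∈ S
    · by_cases hiT : i ∈ T
      · have hT' : T.erase i ∈ B := hB hTB.1 (erase_subset _ _)
        have hS' : S.erase i ∈ A := hA hSB.1 (erase_subset _ _)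
        by_cases h1 : T.erase i ∈ A
        · by_cases h2 : S.erase i ∈ B
          · right
            rw [mem_image]
            refine ⟨S.erase i ∪ T.erase i, ?_, ?_⟩
            · rw [mem_UU]
              refine ⟨S.erase i, ?_, T.erase i, ?_, rfl⟩
              · rw [hCA, mem_filter, mem_inter, insert_erase hiS]
                exact ⟨⟨hS', h2⟩, hS⟩
              · rw [hCB, mem_filter, mem_inter, insert_erase hiT]
                exact ⟨⟨h1, hT'⟩, hT⟩
            · rw [← Finset.insert_union, insert_erase hiS]
              ext j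
              simp only [mem_union, mem_erase]
              constructor
              · tauto
              · rintro (h | h)
                · exact Or.inl h
                · by_cases hj : j = i
                  · subst hj; exact Or.inl hiS
                  · exact Or.inr ⟨hj, h⟩
          · left; right
            rw [mem_UU]
            refine ⟨S.erase i, ?_, T, ?_, ?_⟩
            · simp only [Av, mem_filter, mem_sdiff]
              exact ⟨⟨hS', h2⟩, by simp⟩
            · simp only [At, mem_filter]
              exact ⟨hT, hiT⟩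
            · ext j
              simp only [mem_union, mem_erase]
              constructor
              · tauto
              · rintro (h | h)
                · by_cases hj : j = i
                  · subst hj; exact Or.inr hiT
                  · exact Or.inl ⟨hj, h⟩
                · exact Or.inr h
        · left; left
          rw [mem_UU]
          refine ⟨S, ?_, T.erase i, ?_, ?_⟩
          · simp only [At, mem_filter]
            exact ⟨hS, hiS⟩
          · simp only [Av, mem_filter, mem_sdiff]
            exact ⟨⟨hT', h1⟩, by simp⟩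
          · ext j
            simp only [mem_union, mem_erase]
            constructor
            · tauto
            · rintro (h | h)
              · exact Or.inl h
              · by_cases hj : j = i
                · subst hj; exact Or.inl hiS
                · exact Or.inr ⟨hj, h⟩
      · left; left
        rw [mem_UU]
        refine ⟨S, ?_, T, ?_, rfl⟩
        · simp only [At, mem_filter]; exact ⟨hS, hiS⟩
        · simp only [Av, mem_filter]; exact ⟨hT, hiT⟩
    · left; right
      have hiT : i ∈ T := by
        rw [mem_union] at hiW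
        tauto
      rw [mem_UU]
      refine ⟨S, ?_, T, ?_, rfl⟩
      · simp only [Av, mem_filter]; exact ⟨hS, hiS⟩
      · simp only [At, mem_filter]; exact ⟨hT, hiT⟩
  have h2 := card_le_card h1
  have h3 := card_union_le
    (UU (At (A \ B) i) (Av (B \ A) i) ∪ UU (Av (A \ B) i) (At (B \ A) i))
    ((UU CA CB).image (fun W => insert i W))
  have h4 := card_union_le
    (UU (At (A \ B) i) (Av (B \ A) i)) (UU (Av (A \ B) i) (At (B \ A) i))
  have h5 : (UU (At (A \ B) i) (Av (B \ A) i)).card ≤
    (At (A \ B) i).card * (Av (B \ A) i).card := card_image₂_le _ _ _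
  have h6 : (UU (Av (A \ B) i) (At (B \ A) i)).card ≤
    (Av (A \ B) i).card * (At (B \ A) i).card := card_image₂_le _ _ _
  have h7 : ((UU CA CB).image (fun W => insert i W)).card ≤ CA.card * CB.card :=
    card_image_le.trans (card_image₂_le _ _ _)
  have h8 : CA.card + CB.card ≤ (A ∩ B).card := by
    have hd : Disjoint CA CB := by
      rw [Finset.disjoint_left]
      intro C hC hC'
      rw [hCA, mem_filter] at hC
      rw [hCB, mem_filter] at hC'
      exact (mem_sdiff.1 hC.2).2 (mem_sdiff.1 hC'.2).1
    rw [← card_union_of_disjoint hd]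
    apply card_le_card
    intro C hC
    rw [mem_union, hCA, hCB, mem_filter, mem_filter] at hC
    rcases hC with h | h
    · exact h.1
    · exact h.1
  have h9 : 4 * (CA.card * CB.card) ≤ (A ∩ B).card ^ 2 := by
    have := Nat.pow_le_pow_left h8 2
    zify at *
    nlinarith [sq_nonneg ((CA.card : ℤ) - CB.card)]
  omega

variable [Fintype α]

lemma Av_bound {A B : Finset (Finset α)} (hA : Low A) (hB : Low B) (i : α) :
    2 * (Av (UU (A \ B) (B \ A)) i).card + (A ∪ B).card ≤ 2 ^ (Fintype.card α) := by
  have h1 := (hA.union hB).At_le i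
  have h2 := At_add_Av (A ∪ B) i
  have h3 : Av (UU (A \ B) (B \ A)) i ∪ Av (A ∪ B) i ⊆ (univ.erase i).powerset := by
    intro S hS
    simp only [Av, mem_union, mem_filter] at hS
    rw [mem_powerset]
    intro j hj
    rw [mem_erase]
    refine ⟨?_, mem_univ _⟩
    rintro rfl
    tauto
  have h4 : Disjoint (Av (UU (A \ B) (B \ A)) i) (Av (A ∪ B) i) :=
    disjoint_of_subset_left (filter_subset _ _)
      (disjoint_of_subset_right (filter_subset _ _) (disj_I hA hB))
  have h5 := card_le_card h3
  rw [card_union_of_disjoint h4, card_powerset, card_erase_of_mem (mem_univ _), card_univ] at h5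
  have h6 : 0 < Fintype.card α := Fintype.card_pos_iff.2 ⟨i⟩
  have h7 : 2 ^ (Fintype.card α) = 2 * 2 ^ (Fintype.card α - 1) := by
    rw [← pow_succ']
    congr 1
    omega
  omega

end Pool.Agent.NH73.CS
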