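import Pool.Agent.NH73.CS.Count

namespace Pool.Agent.NH73.CS

open Finset

variable {α : Type*} [DecidableEq α]

/-- Harris correlation inequality on the subsets of a finite set -/
lemma harris (F : Finset α) (σ θ : Finset α → ℕ) (K : ℕ) (hσK : ∀ Z, σ Z ≤ K)
    (hσ : ∀ Z Z', Z ⊆ Z' → Z' ⊆ F → σ Z' ≤ σ Z)
    (hθ : ∀ Z Z', Z ⊆ Z' → Z' ⊆ F → θ Z ≤ θ Z') :
    2 ^ F.card * ∑ Z ∈ F.powerset, σ Z * θ Z ≤
      (∑ Z ∈ F.powerset, σ Z) * ∑ Z ∈ F.powerset, θ Z := by
  have h := Finset.four_functions_theorem (β := ℤ) F (f₁ := fun Z => (K : ℤ) - σ Z)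
    (f₂ := fun Z => (θ Z : ℤ)) (f₃ := fun _ => 1)
    (f₄ := fun Z => ((K : ℤ) - σ Z) * θ Z)
    (fun Z => by
      have : (σ Z : ℤ) ≤ K := by exact_mod_cast hσK Z
      show (0 : ℤ) ≤ (K : ℤ) - σ Z
      linarith)
    (fun Z => by show (0 : ℤ) ≤ (θ Z : ℤ); positivity)
    (fun Z => by show (0 : ℤ) ≤ 1; norm_num)
    (fun Z => by
      have : (σ Z : ℤ) ≤ K := by exact_mod_cast hσK Z
      show (0 : ℤ) ≤ ((K : ℤ) - σ Z) * θ Z
      apply mul_nonneg
      · linarith
      · positivity)
    (fun s hs t ht => by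
      have h1 : (σ (s ∪ t) : ℤ) ≤ σ s := by
        exact_mod_cast hσ s (s ∪ t) subset_union_left (union_subset hs ht)
      have h2 : (θ t : ℤ) ≤ θ (s ∪ t) := by
        exact_mod_cast hθ t (s ∪ t) subset_union_right (union_subset hs ht)
      have h3 : (σ s : ℤ) ≤ K := by exact_mod_cast hσK s
      have h4 : (0 : ℤ) ≤ θ t := by positivity
      show ((K : ℤ) - σ s) * θ t ≤ 1 * (((K : ℤ) - σ (s ∪ t)) * θ (s ∪ t))
      rw [one_mul]
      apply mul_le_mul
      · linarith
      · exact h2
      · exact h4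
      · linarith)
    (𝒜 := F.powerset) (ℬ := F.powerset) subset_rfl subset_rfl
  rw [powerset_sups_powerset_self, powerset_infs_powerset_self] at h
  simp only [sum_sub_distrib, sum_const, card_powerset, sub_mul, nsmul_eq_mul, mul_one,
    ← mul_sum] at h
  zify
  push_cast at h ⊢
  nlinarith [h]

/-- the members of a family that meet a set -/
def Mt (X : Finset (Finset α)) (F : Finset α) : Finset (Finset α) :=
  X.filter (fun T => ¬ Disjoint T F)

lemma Mt_le {A B : Finset (Finset α)} (hA : Low A) (hA0 : A.Nonempty) (hB : Low B)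
    (hB0 : B.Nonempty) (F : Finset α) :
    (Mt B F).card ≤ (Mt (B \ A) F).card + ((A ∩ B).card - 1) := by
  rw [← card_erase_of_mem (mem_inter.2 ⟨hA.empty_mem hA0, hB.empty_mem hB0⟩)]
  refine le_trans (card_le_card ?_) (card_union_le _ _)
  intro T hT
  simp only [Mt, mem_filter, mem_union, mem_sdiff, mem_erase, mem_inter] at hT ⊢
  by_cases h : T ∈ A
  · right
    refine ⟨?_, h, hT.1⟩
    rintro rfl
    exact hT.2 (disjoint_empty_left _)
  · left
    exact ⟨⟨hT.1, h⟩, hT.2⟩

lemma Mt_mul {X Y : Finset (Finset α)} (F : Finset α) (L M : ℕ)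
    (h : ∀ i ∈ F, L ≤ M * (At X i).card) :
    L * (Mt Y F).card ≤ M * (meetPairs X Y).card := by
  have h1 : (meetPairs X Y).card =
      ∑ T ∈ Y, ((meetPairs X Y).filter (fun p => p.2 = T)).card := by
    apply card_eq_sum_card_fiberwise
    intro p hp
    simp only [meetPairs, coe_filter, mem_product, Set.mem_ofPred_eq] at hp
    exact hp.1.2
  rw [h1, mul_sum, mul_comm L, ← smul_eq_mul, ← sum_const]
  refine le_trans ?_ (sum_le_sum_of_subset (show Mt Y F ⊆ Y from filter_subset _ _))
  apply sum_le_sum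
  intro T hT
  simp only [Mt, mem_filter] at hT
  obtain ⟨hTY, hTF⟩ := hT
  rw [Finset.not_disjoint_iff] at hTF
  obtain ⟨i, hiT, hiF⟩ := hTF
  refine (h i hiF).trans (Nat.mul_le_mul_left _ ?_)
  apply card_le_card_of_injOn (fun S => (S, T))
  · intro S hS
    simp only [At, coe_filter, Set.mem_ofPred_eq] at hS
    simp only [meetPairs, coe_filter, Set.mem_ofPred_eq, mem_filter, mem_product]
    refine ⟨⟨⟨hS.1, hTY⟩, ?_⟩, trivial⟩
    rw [Finset.not_disjoint_iff]
    exact ⟨i, hS.2, hiT⟩
  · intro S _ S' _ hSS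
    simp only [Prod.mk.injEq] at hSS
    exact hSS.1

lemma sig_anti {A : Finset (Finset α)} (hA : Low A) (F : Finset α) {Z Z' : Finset α}
    (hZ : Z ⊆ Z') :
    (A.filter (fun S => S ∩ F = Z')).card ≤ (A.filter (fun S => S ∩ F = Z)).card := by
  by_cases hZF : Z' ⊆ F
  · apply card_le_card_of_injOn (fun S => S \ (F \ Z))
    · intro S hS
      simp only [coe_filter, Set.mem_ofPred_eq] at hS ⊢
      refine ⟨hA hS.1 sdiff_subset, ?_⟩
      ext j
      have := Finset.ext_iff.1 hS.2 j
      have hj1 := @hZ j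
      have hj2 := @hZF j
      clear hS
      simp only [mem_inter, mem_sdiff] at this ⊢
      tauto
    · intro S hS S' hS' h
      simp only [coe_filter, Set.mem_ofPred_eq] at hS hS'
      ext j
      have a1 := Finset.ext_iff.1 hS.2 j
      have a2 := Finset.ext_iff.1 hS'.2 j
      have a3 := Finset.ext_iff.1 h j
      clear hS hS' h
      simp only [mem_inter, mem_sdiff] at a1 a2 a3
      tauto
  · have : A.filter (fun S => S ∩ F = Z') = ∅ := by
      rw [filter_eq_empty_iff]
      intro S _ h
      apply hZF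
      rw [← h]
      exact inter_subset_right
    rw [this, card_empty]
    exact Nat.zero_le _

lemma tau_mono {B : Finset (Finset α)} (hB : Low B) (F : Finset α) {Z Z' : Finset α}
    (hZ : Z ⊆ Z') (hZ' : Z' ⊆ F) :
    (B.filter (fun T => F \ T = Z)).card ≤ (B.filter (fun T => F \ T = Z')).card := by
  apply card_le_card_of_injOn (fun T => T \ Z')
  · intro T hT
    simp only [coe_filter, Set.mem_ofPred_eq] at hT ⊢
    refine ⟨hB hT.1 sdiff_subset, ?_⟩
    ext j
    have := Finset.ext_iff.1 hT.2 j
    have hj1 := @hZ j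
    have hj2 := @hZ' j
    clear hT
    simp only [mem_sdiff] at this ⊢
    tauto
  · intro T hT T' hT' h
    simp only [coe_filter, Set.mem_ofPred_eq] at hT hT'
    ext j
    have a1 := Finset.ext_iff.1 hT.2 j
    have a2 := Finset.ext_iff.1 hT'.2 j
    have a3 := Finset.ext_iff.1 h j
    have hj2 := @hZ' j
    clear hT hT' h
    simp only [mem_sdiff] at a1 a2 a3
    tauto

variable [Fintype α]

lemma D_case {A B : Finset (Finset α)} (hA : Low A) (hB : Low B) (F : Finset α)
    (hF : F ∉ A) :
    2 ^ (Fintype.card α) ≤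
      2 ^ F.card * (univ \ UU A B : Finset (Finset α)).card + 2 * (A.card * (Mt B F).card) := by
  set σ : Finset α → ℕ := fun Z => (A.filter (fun S => S ∩ F = Z)).card with hσ
  set τ : Finset α → ℕ := fun Z => (B.filter (fun T => F \ T = Z)).card with hτ
  set θ : Finset α → ℕ := fun Z => if Z = F then (Mt B F).card else τ Z with hθ
  -- counting supersets
  have h1 : 2 ^ (Fintype.card α) = 2 ^ F.card * (Finset.Icc F univ).card := by
    rw [card_Icc_finset (subset_univ F), card_univ, ← pow_add]
    congr 1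
    have := card_le_univ F
    omega
  have h2 : (Finset.Icc F univ).card ≤
      (univ \ UU A B : Finset (Finset α)).card + (Finset.Icc F univ ∩ UU A B).card := by
    refine le_trans (card_le_card ?_) (card_union_le _ _)
    intro W hW
    rw [mem_union, mem_sdiff, mem_inter]
    by_cases h : W ∈ UU A B
    · right; exact ⟨hW, h⟩
    · left; exact ⟨mem_univ _, h⟩
  have h3 : Finset.Icc F univ ∩ UU A B ⊆ (F.powerset.erase F).biUnion
      (fun Z => UU (A.filter (fun S => S ∩ F = Z)) (B.filter (fun T => F \ T = Z))) := by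
    intro W hW
    rw [mem_inter, mem_Icc] at hW
    obtain ⟨⟨hFW, _⟩, hW⟩ := hW
    obtain ⟨S, hS, T, hT, rfl⟩ := mem_UU.1 hW
    have hne : S ∩ F ≠ F := by
      intro h
      apply hF
      rw [← h]
      exact hA hS inter_subset_left
    rw [mem_biUnion]
    refine ⟨S ∩ F, ?_, ?_⟩
    · rw [mem_erase, mem_powerset]
      exact ⟨hne, inter_subset_right⟩
    · rw [mem_UU]
      refine ⟨S, ?_, T \ (S ∩ F), ?_, ?_⟩
      · rw [mem_filter]; exact ⟨hS, rfl⟩
      · rw [mem_filter]
        refine ⟨hB hT sdiff_subset, ?_⟩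
        ext j
        simp only [mem_sdiff, mem_inter]
        constructor
        · rintro ⟨hj, hj'⟩
          have hjW : j ∈ S ∪ T := hFW hj
          rw [mem_union] at hjW
          tauto
        · rintro ⟨hj, hj'⟩
          tauto
      · ext j
        simp only [mem_union, mem_sdiff, mem_inter]
        tauto
  have h4 : (Finset.Icc F univ ∩ UU A B).card ≤ ∑ Z ∈ F.powerset, σ Z * θ Z := by
    calc (Finset.Icc F univ ∩ UU A B).card
        ≤ ∑ Z ∈ F.powerset.erase F, (UU (A.filter (fun S => S ∩ F = Z))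
            (B.filter (fun T => F \ T = Z))).card := (card_le_card h3).trans card_biUnion_le
      _ ≤ ∑ Z ∈ F.powerset.erase F, σ Z * θ Z := by
          apply sum_le_sum
          intro Z hZ
          have hZF : Z ≠ F := (mem_erase.1 hZ).1
          simp only [hθ, hZF, if_false]
          exact card_image₂_le _ _ _
      _ ≤ ∑ Z ∈ F.powerset, σ Z * θ Z := sum_le_sum_of_subset (erase_subset _ _)
  have h5 : ∑ Z ∈ F.powerset, σ Z = A.card := by
    symm
    apply card_eq_sum_card_fiberwise
    intro S _
    simp only [coe_powerset, Set.mem_preimage, Set.mem_powerset_iff, coe_subset]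
    exact inter_subset_right
  have h6 : ∑ Z ∈ F.powerset, θ Z = 2 * (Mt B F).card := by
    rw [← add_sum_erase _ _ (mem_powerset_self F)]
    have e1 : θ F = (Mt B F).card := by simp [hθ]
    have e2 : ∑ Z ∈ F.powerset.erase F, θ Z = (Mt B F).card := by
      symm
      have e3 : (Mt B F).card =
          ∑ Z ∈ F.powerset.erase F, ((Mt B F).filter (fun T => F \ T = Z)).card := by
        apply card_eq_sum_card_fiberwise
        intro T hT
        simp only [Mt, coe_filter, Set.mem_ofPred_eq] at hT
        simp only [mem_coe, mem_erase, mem_powerset]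
        refine ⟨?_, sdiff_subset⟩
        intro h
        rw [Finset.sdiff_eq_self_iff_disjoint] at h
        exact hT.2 h.symm
      rw [e3]
      apply sum_congr rfl
      intro Z hZ
      have hZF : Z ≠ F := (mem_erase.1 hZ).1
      simp only [hθ, hZF, if_false, hτ]
      congr 1
      ext T
      simp only [Mt, mem_filter]
      constructor
      · rintro ⟨⟨h1, h2⟩, h3⟩
        exact ⟨h1, h3⟩
      · rintro ⟨h1, h3⟩
        refine ⟨⟨h1, ?_⟩, h3⟩
        intro h
        apply hZF
        rw [← h3, Finset.sdiff_eq_self_iff_disjoint]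
        exact h.symm
    rw [e1, e2]; ring
  have h7 := harris F σ θ A.card
    (fun Z => card_le_card (filter_subset _ _))
    (fun Z Z' hZ _ => sig_anti hA F hZ)
    (by
      intro Z Z' hZ hZ'
      by_cases hz : Z = F
      · have : Z' = F := by
          apply subset_antisymm hZ'
          rw [← hz]; exact hZ
        rw [hz, this]
      · by_cases hz' : Z' = F
        · simp only [hθ, hz, hz', if_false, if_true, hτ]
          apply card_le_card
          intro T hT
          simp only [Mt, mem_filter] at hT ⊢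
          refine ⟨hT.1, ?_⟩
          intro h
          apply hz
          rw [← hT.2, Finset.sdiff_eq_self_iff_disjoint]
          exact h.symm
        · simp only [hθ, hz, hz', if_false, hτ]
          exact tau_mono hB F hZ hZ')
  rw [h5, h6] at h7
  calc 2 ^ (Fintype.card α) = 2 ^ F.card * (Finset.Icc F univ).card := h1
    _ ≤ 2 ^ F.card * ((univ \ UU A B : Finset (Finset α)).card + ∑ Z ∈ F.powerset, σ Z * θ Z) :=
        Nat.mul_le_mul_left _ (h2.trans (Nat.add_le_add_left h4 _))
    _ = 2 ^ F.card * (univ \ UU A B : Finset (Finset α)).card +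
          2 ^ F.card * ∑ Z ∈ F.powerset, σ Z * θ Z := by ring
    _ ≤ 2 ^ F.card * (univ \ UU A B : Finset (Finset α)).card + A.card * (2 * (Mt B F).card) :=
        Nat.add_le_add_left h7 _
    _ = _ := by ring

end Pool.Agent.NH73.CS
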