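import Pool.Agent.NH73.CS.Num2
import Pool.Agent.NH73.CS.Harris

namespace Pool.Agent.NH73.CS

open Finset

variable {α : Type*} [DecidableEq α] [Fintype α]

lemma card_union_eq (A B : Finset (Finset α)) :
    (A ∪ B).card = (A \ B).card + (B \ A).card + (A ∩ B).card := by
  have h1 := card_union_add_card_inter A B
  have h2 := card_sdiff_add_card_inter A B
  have h3 := card_sdiff_add_card_inter B A
  rw [inter_comm B A] at h3
  omega

lemma total_le {A B : Finset (Finset α)} (hA : Low A) (hB : Low B) :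
    (UU (A \ B) (B \ A)).card + (A ∪ B).card ≤ 2 ^ Fintype.card α := by
  rw [← card_union_of_disjoint (disj_I hA hB), ← Fintype.card_finset]
  exact card_le_univ _

lemma missing_le {A B : Finset (Finset α)} (hA : Low A) (hA0 : A.Nonempty) (hB : Low B)
    (hB0 : B.Nonempty) :
    (univ \ UU A B : Finset (Finset α)).card + ((UU (A \ B) (B \ A)).card + (A ∪ B).card) ≤
      2 ^ Fintype.card α := by
  rw [← card_union_of_disjoint (disj_I hA hB), ← Fintype.card_finset, ← card_univ,
    ← card_union_of_disjoint]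
  · exact card_le_card (subset_univ _)
  · rw [Finset.disjoint_left]
    intro W hW hW'
    apply (mem_sdiff.1 hW).2
    rw [mem_union, mem_union] at hW'
    rw [mem_UU]
    rcases hW' with h | h | h
    · obtain ⟨S, hS, T, hT, h⟩ := mem_UU.1 h
      exact ⟨S, (mem_sdiff.1 hS).1, T, (mem_sdiff.1 hT).1, h⟩
    · exact ⟨W, h, ∅, hB.empty_mem hB0, union_empty W⟩
    · exact ⟨∅, hA.empty_mem hA0, W, h, empty_union W⟩

/-- no member is large -/
lemma small_member {A B : Finset (Finset α)} (hA : Low A) {d : ℕ}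
    (hn : Fintype.card α = 2 * d + 1) {q : ℕ}
    (hc2 : 2 ≤ (A ∩ B).card)
    (hq : (UU (A \ B) (B \ A)).card + (A ∪ B).card + q = 2 ^ Fintype.card α)
    (hI : 2 * (2 ^ d) ^ 2 + 2 ≤ (UU (A \ B) (B \ A)).card + 3 * 2 ^ d)
    {S : Finset α} (hS : S ∈ A) : S.card ≤ d := by
  by_contra hcon
  push Not at hcon
  have h1 : 2 ^ (d + 1) ≤ A.card :=
    (Nat.pow_le_pow_right (by norm_num) hcon).trans (hA.pow_le hS)
  have h2 := card_sdiff_add_card_inter A B
  have h3 := card_union_eq A B
  have h4 : (UU (A \ B) (B \ A)).card ≤ (A \ B).card * (B \ A).card := card_image₂_le _ _ _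
  have h5 : 2 ^ Fintype.card α = 2 * (2 ^ d) ^ 2 := by
    rw [hn, pow_succ, mul_comm 2 d, pow_mul]; ring
  have h6 : 1 ≤ 2 ^ d := Nat.one_le_two_pow
  rw [pow_succ] at h1
  rw [h5] at hq
  generalize 2 ^ d = D at *
  have hs : (((A \ B).card : ℕ) : ℝ) + (B \ A).card + (A ∩ B).card + q ≤ 3 * D - 2 := by
    have : (A \ B).card + (B \ A).card + (A ∩ B).card + q + 2 ≤ 3 * D := by omega
    have := (Nat.cast_le (α := ℝ)).2 this
    push_cast at this
    linarith
  have hab : 2 * (D : ℝ) ^ 2 - 3 * D + 2 ≤ ((A \ B).card : ℝ) * (B \ A).card := by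
    have : 2 * D ^ 2 + 2 ≤ (A \ B).card * (B \ A).card + 3 * D := by omega
    have := (Nat.cast_le (α := ℝ)).2 this
    push_cast at this
    linarith
  have hc : (2 : ℝ) ≤ (A ∩ B).card := by exact_mod_cast hc2
  have hD : (1 : ℝ) ≤ D := by exact_mod_cast h6
  have h40 := num1 hD (Nat.cast_nonneg _) (Nat.cast_nonneg _) hs hab
  have h40' : 40 * (((A ∩ B).card : ℝ) + q) ≤ 7 * D + 4 := by
    have : 40 * ((A ∩ B).card + q) < 7 * D + 5 := by
      have : ((40 * ((A ∩ B).card + q) : ℕ) : ℝ) < ((7 * D + 5 : ℕ) : ℝ) := by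
        push_cast; exact h40
      exact_mod_cast this
    have : 40 * ((A ∩ B).card + q) ≤ 7 * D + 4 := by omega
    exact_mod_cast this
  refine num_small (Nat.cast_nonneg _) hc (Nat.cast_nonneg q) h40' hs hab ?_
  have : 2 * D ≤ (A \ B).card + (A ∩ B).card := by omega
  exact_mod_cast this

lemma fin {A B : Finset (Finset α)} (hA : Low A) (hA0 : A.Nonempty) (hB : Low B)
    (hB0 : B.Nonempty) {d : ℕ}
    (hn : Fintype.card α = 2 * d + 1) {q : ℕ}
    (hc2 : 2 ≤ (A ∩ B).card)
    (hq : (UU (A \ B) (B \ A)).card + (A ∪ B).card + q = 2 ^ Fintype.card α)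
    (hI : 2 * (2 ^ d) ^ 2 + 2 ≤ (UU (A \ B) (B \ A)).card + 3 * 2 ^ d)
    (X : Finset α) (hX : X ∉ A)
    (hXi : ∀ i ∈ X, (At (B \ A) i).card * (A \ B).card ≤ (At (A \ B) i).card * (B \ A).card) :
    False := by
  -- minimal nonface
  obtain ⟨F, hF, hFmin⟩ := Finset.exists_min_image (X.powerset.filter (fun G => G ∉ A)) card
    ⟨X, by rw [mem_filter]; exact ⟨mem_powerset_self X, hX⟩⟩
  rw [mem_filter, mem_powerset] at hF
  obtain ⟨hFX, hFA⟩ := hF
  have hFne : F.Nonempty := by
    rw [nonempty_iff_ne_empty]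
    rintro rfl
    exact hFA (hA.empty_mem hA0)
  obtain ⟨i₀, hi₀⟩ := hFne
  have hFe : F.erase i₀ ∈ A := by
    by_contra hcon
    have := hFmin (F.erase i₀) (by
      rw [mem_filter, mem_powerset]
      exact ⟨(erase_subset _ _).trans hFX, hcon⟩)
    rw [card_erase_of_mem hi₀] at this
    have h0 : 0 < F.card := card_pos.2 ⟨i₀, hi₀⟩
    omega
  have hFcard : F.card ≤ d + 1 := by
    have := small_member hA hn hc2 hq hI hFe
    rw [card_erase_of_mem hi₀] at this
    omega
  have hDc := D_case hA hB F hFA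
  have hMt := Mt_le hA hA0 hB hB0 F
  have hN1 := N_left hA hA0 hB hB0
  have hN2 := N_right hA hA0 hB hB0
  have hmiss := missing_le hA hA0 hB hB0
  have h2 := card_sdiff_add_card_inter A B
  have h3 := card_union_eq A B
  have h4 : (UU (A \ B) (B \ A)).card ≤ (A \ B).card * (B \ A).card := card_image₂_le _ _ _
  have h5 : 2 ^ Fintype.card α = 2 * (2 ^ d) ^ 2 := by
    rw [hn, pow_succ, mul_comm 2 d, pow_mul]; ring
  have h6 : 1 ≤ 2 ^ d := Nat.one_le_two_pow
  have h7 : 2 ^ F.card ≤ 2 * 2 ^ d := by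
    rw [← pow_succ']
    exact Nat.pow_le_pow_right (by norm_num) hFcard
  have hAt : ∀ i, 4 * (At (UU (A \ B) (B \ A)) i).card ≤
      4 * ((At (A \ B) i).card * (Av (B \ A) i).card +
        (Av (A \ B) i).card * (At (B \ A) i).card) + (A ∩ B).card ^ 2 := At_bound hA hB
  have hAv : ∀ i, 2 * (Av (UU (A \ B) (B \ A)) i).card + (A ∪ B).card ≤
      2 ^ (Fintype.card α) := Av_bound hA hB
  have hsum1 : ∀ i, (At (UU (A \ B) (B \ A)) i).card + (Av (UU (A \ B) (B \ A)) i).card =
      (UU (A \ B) (B \ A)).card := At_add_Av _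
  have hsumA : ∀ i, (At (A \ B) i).card + (Av (A \ B) i).card = (A \ B).card := At_add_Av _
  have hsumB : ∀ i, (At (B \ A) i).card + (Av (B \ A) i).card = (B \ A).card := At_add_Av _
  rw [h5] at hDc hq hmiss hAv
  generalize 2 ^ d = D at *
  -- real versions
  have hs : (((A \ B).card : ℕ) : ℝ) + (B \ A).card + (A ∩ B).card + q ≤ 3 * D - 2 := by
    have : (A \ B).card + (B \ A).card + (A ∩ B).card + q + 2 ≤ 3 * D := by omega
    have := (Nat.cast_le (α := ℝ)).2 this
    push_cast at this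
    linarith
  have hab : 2 * (D : ℝ) ^ 2 - 3 * D + 2 ≤ ((A \ B).card : ℝ) * (B \ A).card := by
    have : 2 * D ^ 2 + 2 ≤ (A \ B).card * (B \ A).card + 3 * D := by omega
    have := (Nat.cast_le (α := ℝ)).2 this
    push_cast at this
    linarith
  have hc : (2 : ℝ) ≤ (A ∩ B).card := by exact_mod_cast hc2
  have hD : (1 : ℝ) ≤ D := by exact_mod_cast h6
  have h40 := num1 hD (Nat.cast_nonneg _) (Nat.cast_nonneg _) hs hab
  have h40n : 40 * ((A ∩ B).card + q) ≤ 7 * D + 4 := by
    have : 40 * ((A ∩ B).card + q) < 7 * D + 5 := by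
      have : ((40 * ((A ∩ B).card + q) : ℕ) : ℝ) < ((7 * D + 5 : ℕ) : ℝ) := by
        push_cast; exact h40
      exact_mod_cast this
    omega
  have h40' : 40 * (((A ∩ B).card : ℝ) + q) ≤ 7 * D + 4 := by
    exact_mod_cast h40n
  have hq0 : (0 : ℝ) ≤ q := Nat.cast_nonneg q
  -- bounds on a and b
  have ha1 : D + (A ∩ B).card ≤ (A \ B).card + 1 := by
    by_contra hcon
    push Not at hcon
    have hh : (A \ B).card + 2 ≤ D + (A ∩ B).card := by omega
    refine num_a (Nat.cast_nonneg _) hc hq0 h40' hs hab ?_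
    have := (Nat.cast_le (α := ℝ)).2 hh
    push_cast at this
    linarith
  have hb1 : D + (A ∩ B).card ≤ (B \ A).card + 1 := by
    by_contra hcon
    push Not at hcon
    have hh : (B \ A).card + 2 ≤ D + (A ∩ B).card := by omega
    refine num_a (D := D) (a := (B \ A).card) (b := (A \ B).card) (c := (A ∩ B).card) (q := q)
      (Nat.cast_nonneg _) hc hq0 h40' (by linarith) (by linarith) ?_
    have := (Nat.cast_le (α := ℝ)).2 hh
    push_cast at this
    linarith
  have ha1' : (D : ℝ) + (A ∩ B).card - 1 ≤ (A \ B).card := by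
    have := (Nat.cast_le (α := ℝ)).2 ha1
    push_cast at this
    linarith
  have hb1' : (D : ℝ) + (A ∩ B).card - 1 ≤ (B \ A).card := by
    have := (Nat.cast_le (α := ℝ)).2 hb1
    push_cast at this
    linarith
  have ha0 : (0 : ℝ) < (A \ B).card := by linarith
  have hb0 : (0 : ℝ) < (B \ A).card := by linarith
  -- x bound
  have hxi : ∀ i ∈ F, (3 * D + 4 * ((A ∩ B).card - 1)) * (A \ B).card ≤
      9 * D * (At (A \ B) i).card := by
    intro i hi
    have key : (3 * (D : ℝ) + 4 * (((A ∩ B).card : ℝ) - 1)) * (A \ B).card ≤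
        9 * D * (At (A \ B) i).card := by
      refine num_x (y := ((At (B \ A) i).card : ℝ)) ha0 hb0 hc hq0 h40' hs ?_ ?_
      · have e1 := hAt i
        have e2 := hAv i
        have e3 := hsum1 i
        have e4 : (((Av (B \ A) i).card : ℕ) : ℝ) = (B \ A).card - (At (B \ A) i).card := by
          rw [← hsumB i]; push_cast; ring
        have e5 : (((Av (A \ B) i).card : ℕ) : ℝ) = (A \ B).card - (At (A \ B) i).card := by
          rw [← hsumA i]; push_cast; ring
        have e1' := (Nat.cast_le (α := ℝ)).2 e1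
        have e2' := (Nat.cast_le (α := ℝ)).2 e2
        have e3' := congrArg (Nat.cast (R := ℝ)) e3
        have hq' := congrArg (Nat.cast (R := ℝ)) hq
        have h3' := congrArg (Nat.cast (R := ℝ)) h3
        push_cast at e1' e2' e3' hq' h3'
        rw [e4, e5] at e1'
        linarith
      · have := (Nat.cast_le (α := ℝ)).2 (hXi i (hFX hi))
        push_cast at this
        exact this
    have : (((3 * D + 4 * ((A ∩ B).card - 1)) * (A \ B).card : ℕ) : ℝ) ≤
        ((9 * D * (At (A \ B) i).card : ℕ) : ℝ) := by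
      push_cast [Nat.cast_sub (show 1 ≤ (A ∩ B).card by omega)]
      exact key
    exact_mod_cast this
  have hMul := Mt_mul (X := A \ B) (Y := B \ A) F _ _ hxi
  have hc1 : (((A ∩ B).card - 1 : ℕ) : ℝ) = ((A ∩ B).card : ℝ) - 1 := by
    rw [Nat.cast_sub (show 1 ≤ (A ∩ B).card by omega)]; simp
  refine num_final (D := D) (a := (A \ B).card) (b := (B \ A).card) (c := (A ∩ B).card) (q := q)
    (N := (meetPairs (A \ B) (B \ A)).card) (I := (UU (A \ B) (B \ A)).card)
    (t := (Mt B F).card) (tB := (Mt (B \ A) F).card)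
    ha0 hc hq0 h40' hs hb0.le ?_ ?_ ?_ (Nat.cast_nonneg _) ha1' (by linarith) ?_ ?_ ?_
  · have hq' := congrArg (Nat.cast (R := ℝ)) hq
    have h3' := congrArg (Nat.cast (R := ℝ)) h3
    push_cast at hq' h3'
    linarith
  · have := (Nat.cast_le (α := ℝ)).2 hN1
    push_cast at this
    rw [hc1] at this
    linarith
  · have := (Nat.cast_le (α := ℝ)).2 hN2
    push_cast at this
    rw [hc1] at this
    linarith
  · have := (Nat.cast_le (α := ℝ)).2 hMul
    push_cast at this
    rw [hc1] at this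
    linarith
  · have := (Nat.cast_le (α := ℝ)).2 hMt
    push_cast at this
    rw [hc1] at this
    linarith
  · have hm : (univ \ UU A B : Finset (Finset α)).card ≤ q := by omega
    have e1 : 2 ^ F.card * (univ \ UU A B : Finset (Finset α)).card ≤ 2 * D * q :=
      Nat.mul_le_mul h7 hm
    have e2 : 2 * D ^ 2 ≤ 2 * D * q + 2 * (A.card * (Mt B F).card) := by omega
    rw [← h2] at e2
    have := (Nat.cast_le (α := ℝ)).2 e2
    push_cast at this
    linarith

/-- Main bound, for unions of two down-closed families. -/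
theorem main_low {A B : Finset (Finset α)} (hA : Low A) (hB : Low B) {d : ℕ}
    (hn : Fintype.card α = 2 * d + 1) :
    (UU (A \ B) (B \ A)).card + 3 * 2 ^ d ≤ 2 * (2 ^ d) ^ 2 + 1 := by
  by_contra hcon
  push Not at hcon
  have hD : 1 ≤ 2 ^ d := Nat.one_le_two_pow
  have h0 : 0 < (UU (A \ B) (B \ A)).card := by
    by_contra h
    have : (UU (A \ B) (B \ A)).card = 0 := by omega
    rw [this] at hcon
    generalize 2 ^ d = D at *
    obtain ⟨E, rfl⟩ := Nat.exists_eq_add_of_le hD
    nlinarith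
  obtain ⟨W, hW⟩ := card_pos.1 h0
  obtain ⟨S, hS, T, hT, _⟩ := mem_UU.1 hW
  have hA0 : A.Nonempty := ⟨S, (mem_sdiff.1 hS).1⟩
  have hB0 : B.Nonempty := ⟨T, (mem_sdiff.1 hT).1⟩
  have h4 : (UU (A \ B) (B \ A)).card ≤ (A \ B).card * (B \ A).card := card_image₂_le _ _ _
  have hc2 : 2 ≤ (A ∩ B).card := by
    by_contra h
    have := case_one hA hA0 hB hB0 (show (A ∩ B).card ≤ 1 by omega) hn
    omega
  have htot := total_le hA hB
  obtain ⟨q, hq⟩ := Nat.exists_eq_add_of_le htot
  have h5 : 2 ^ Fintype.card α = 2 * (2 ^ d) ^ 2 := by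
    rw [hn, pow_succ, mul_comm 2 d, pow_mul]; ring
  have hI : 2 * (2 ^ d) ^ 2 + 2 ≤ (UU (A \ B) (B \ A)).card + 3 * 2 ^ d := by omega
  set X := univ.filter (fun i : α =>
    (At (B \ A) i).card * (A \ B).card ≤ (At (A \ B) i).card * (B \ A).card) with hX
  have hXor : X ∉ A ∨ Xᶜ ∉ B := by
    by_contra h
    push Not at h
    have hu : univ ∈ UU A B := by
      rw [mem_UU]
      exact ⟨X, h.1, Xᶜ, h.2, union_compl X⟩
    have := univ_case hA hB hu hn
    omega
  rcases hXor with h | h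
  · refine fin hA hA0 hB hB0 hn hc2 hq.symm hI X h ?_
    intro i hi
    rw [hX, mem_filter] at hi
    exact hi.2
  · refine fin hB hB0 hA hA0 hn (q := q) ?_ ?_ ?_ Xᶜ h ?_
    · rw [inter_comm]; exact hc2
    · rw [UU_comm, union_comm B A]; exact hq.symm
    · rw [UU_comm]; exact hI
    · intro i hi
      rw [mem_compl, hX, mem_filter] at hi
      have : ¬ (At (B \ A) i).card * (A \ B).card ≤ (At (A \ B) i).card * (B \ A).card :=
        fun h => hi ⟨mem_univ _, h⟩
      omega

end Pool.Agent.NH73.CS
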