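import Mathlib

namespace Pool.Agent.NH73.CS

lemma P1 {D c q : ℝ} (hc : 2 ≤ c) (hq : 0 ≤ q) (h : 40 * (c + q) ≤ 7 * D + 4) :
    4 * (3 * D + 4 * (c - 1)) * (3 * D - 2 * (c - 1)) * (3 * D - 2 - c - q) ^ 2
      < 81 * D ^ 2 * (4 * D ^ 2 - 6 * D + 4 - 2 * q - c ^ 2) := by
  obtain ⟨x, hx, rfl⟩ : ∃ x : ℝ, 0 ≤ x ∧ c = x + 2 := ⟨c - 2, by linarith, by ring⟩
  obtain ⟨e, he, rfl⟩ : ∃ e : ℝ, 0 ≤ e ∧ D = (40 * (x + 2 + q) - 4 + e) / 7 :=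
    ⟨7 * D - 40 * (x + 2 + q) + 4, by linarith, by ring⟩
  rw [← sub_pos]
  have key : 81 * ((40 * (x + 2 + q) - 4 + e) / 7) ^ 2 * (4 * ((40 * (x + 2 + q) - 4 + e) / 7) ^ 2 - 6 * ((40 * (x + 2 + q) - 4 + e) / 7) + 4 - 2 * q - (x + 2) ^ 2) - 4 * (3 * ((40 * (x + 2 + q) - 4 + e) / 7) + 4 * ((x + 2) - 1)) * (3 * ((40 * (x + 2 + q) - 4 + e) / 7) - 2 * ((x + 2) - 1)) * (3 * ((40 * (x + 2 + q) - 4 + e) / 7) - 2 - (x + 2) - q) ^ 2
      = (63584/7)*x^4 + (20814592/343)*x^3*q + (3384/7)*x^3*e + (28059296/343)*x^3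
       + (45703136/343)*x^2*q^2 + (1241760/343)*x^2*q*e + (133599552/343)*x^2*q
       + (45/7)*x^2*e^2 + (1428768/343)*x^2*e + (94922256/343)*x^2 + (41424960/343)*x*q^3
       + (2092584/343)*x*q^2*e + (27099808/49)*x*q^2 + (26424/343)*x*q*e^2
       + (5752752/343)*x*q*e + (285964416/343)*x*q + (24228/343)*x*e^2 + (3731040/343)*x*e
       + (141799232/343)*x + (13420800/343)*q^4 + (1016640/343)*q^3*e + (84158400/343)*q^3
       + (25668/343)*q^2*e^2 + (643800/49)*q^2*e + (196727168/343)*q^2 + (216/343)*q*e^3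
       + (66546/343)*q*e^2 + (6514608/343)*q*e + (203389216/343)*q + (162/343)*e^3
       + (38952/343)*e^2 + (3057120/343)*e + (78644096/343) := by ring
  rw [key]
  positivity

lemma P2 {D c q : ℝ} (hc : 2 ≤ c) (hq : 0 ≤ q) (h : 40 * (c + q) ≤ 7 * D + 4) :
    9 * D * (D + 2 * c - 1) * (D ^ 2 - 6 * D * (1 + q) + q ^ 2 - c ^ 2 + 6 * q + 2 * c)
      + 4 * (3 * D + 4 * (c - 1)) * (D + c - 1) * (2 * D - c - 1) * (c - 1)
      < 4 * (3 * D + 4 * (c - 1)) * (D + c - 1) * (D ^ 2 - D * q) := by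
  obtain ⟨x, hx, rfl⟩ : ∃ x : ℝ, 0 ≤ x ∧ c = x + 2 := ⟨c - 2, by linarith, by ring⟩
  obtain ⟨e, he, rfl⟩ : ∃ e : ℝ, 0 ≤ e ∧ D = (40 * (x + 2 + q) - 4 + e) / 7 :=
    ⟨7 * D - 40 * (x + 2 + q) + 4, by linarith, by ring⟩
  rw [← sub_pos]
  have key : 4 * (3 * ((40 * (x + 2 + q) - 4 + e) / 7) + 4 * ((x + 2) - 1)) * (((40 * (x + 2 + q) - 4 + e) / 7) + (x + 2) - 1) * (((40 * (x + 2 + q) - 4 + e) / 7) ^ 2 - ((40 * (x + 2 + q) - 4 + e) / 7) * q) - (9 * ((40 * (x + 2 + q) - 4 + e) / 7) * (((40 * (x + 2 + q) - 4 + e) / 7) + 2 * (x + 2) - 1) * (((40 * (x + 2 + q) - 4 + e) / 7) ^ 2 - 6 * ((40 * (x + 2 + q) - 4 + e) / 7) * (1 + q) + q ^ 2 - (x + 2) ^ 2 + 6 * q + 2 * (x + 2)) + 4 * (3 * ((40 * (x + 2 + q) - 4 + e) / 7) + 4 * ((x + 2) - 1)) * (((40 * (x + 2 + q) - 4 + e) / 7) + (x + 2) - 1) * (2 * ((40 * (x + 2 + q) - 4 + e) / 7) - (x + 2) - 1) * ((x + 2) - 1))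
      = (148896/2401)*x^4 + (33985360/2401)*x^3*q + (227922/2401)*x^3*e + (40278208/2401)*x^3
       + (93594320/2401)*x^2*q^2 + (3008032/2401)*x^2*q*e + (290832872/2401)*x^2*q
       + (16109/2401)*x^2*e^2 + (3895349/2401)*x^2*e + (217962012/2401)*x^2
       + (85509840/2401)*x*q^3 + (4928146/2401)*x*q^2*e + (433825456/2401)*x*q^2
       + (85040/2401)*x*q*e^2 + (15643340/2401)*x*q*e + (722147920/2401)*x*q
       + (382/2401)*x*e^3 + (117742/2401)*x*e^2 + (11949670/2401)*x*e + (396883560/2401)*x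
       + (25790400/2401)*q^4 + (2143920/2401)*q^3*e + (182727480/2401)*q^3
       + (63639/2401)*q^2*e^2 + (11019067/2401)*q^2*e + (479815268/2401)*q^2
       + (774/2401)*q*e^3 + (206432/2401)*q*e^2 + (18524098/2401)*q*e + (555961080/2401)*q
       + (3/2401)*e^4 + (1129/2401)*e^3 + (161186/2401)*e^2 + (10222508/2401)*e
       + (241532896/2401) := by ring
  rw [key]
  positivity

end Pool.Agent.NH73.CS
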