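import Pool.Agent.NH73.CS.Num

namespace Pool.Agent.NH73.CS

lemma num1 {D a b c q : ℝ} (hD : 1 ≤ D) (ha : 0 ≤ a) (hb : 0 ≤ b)
    (hs : a + b + c + q ≤ 3 * D - 2) (hab : 2 * D ^ 2 - 3 * D + 2 ≤ a * b) :
    40 * (c + q) < 7 * D + 5 := by
  by_contra hcon
  push Not at hcon
  have h1 : 0 ≤ 3 * D - (c + q + 2) := by linarith
  have h2 : a + b ≤ 3 * D - (7 * D + 85) / 40 := by linarith
  have h3 : (a + b) ^ 2 ≤ (3 * D - (7 * D + 85) / 40) ^ 2 :=
    pow_le_pow_left₀ (by linarith) h2 2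
  have h4 : 4 * (a * b) ≤ (a + b) ^ 2 := by nlinarith [sq_nonneg (a - b)]
  have h5 : (3 * D - (7 * D + 85) / 40) ^ 2 =
      (12769 * D ^ 2 - 19210 * D + 7225) / 1600 := by ring
  rw [h5] at h3
  nlinarith [sq_nonneg D]

lemma num_small {D a b c q : ℝ} (hb : 0 ≤ b) (hc : 2 ≤ c)
    (hq : 0 ≤ q) (h40 : 40 * (c + q) ≤ 7 * D + 4)
    (hs : a + b + c + q ≤ 3 * D - 2) (hab : 2 * D ^ 2 - 3 * D + 2 ≤ a * b)
    (hA : 2 * D ≤ a + c) : False := by
  have hb0 : b ≤ D - 2 - q := by linarith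
  have h1 : a * b ≤ (3 * D - 2 - q - c - b) * b := by
    apply mul_le_mul_of_nonneg_right _ hb
    linarith
  have h2 : (3 * D - 2 - q - c - b) * b ≤ (D - 2 - q) * (2 * D - c) := by
    nlinarith [mul_nonneg (sub_nonneg.2 hb0) (show (0 : ℝ) ≤ 2 * D - c - b by linarith)]
  have h3 : (D - 2 - q) * (2 * D - c) ≤ (D - 2) * (2 * D - 2) := by
    have e1 : (D - 2 - q) * (2 * D - c) ≤ (D - 2) * (2 * D - c) :=
      mul_le_mul_of_nonneg_right (by linarith) (by linarith)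
    have e2 : (D - 2) * (2 * D - c) ≤ (D - 2) * (2 * D - 2) :=
      mul_le_mul_of_nonneg_left (by linarith) (by linarith)
    linarith
  nlinarith

lemma num_a {D a b c q : ℝ} (ha : 0 ≤ a) (hc : 2 ≤ c)
    (hq : 0 ≤ q) (h40 : 40 * (c + q) ≤ 7 * D + 4)
    (hs : a + b + c + q ≤ 3 * D - 2) (hab : 2 * D ^ 2 - 3 * D + 2 ≤ a * b)
    (hA : a ≤ D + c - 2) : False := by
  have h1 : a * b ≤ a * (3 * D - 2 - c - a) := by
    apply mul_le_mul_of_nonneg_left _ ha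
    linarith
  have h2 : a * (3 * D - 2 - c - a) ≤ (D + c - 2) * (2 * D - 2 * c) := by
    nlinarith [mul_nonneg (sub_nonneg.2 hA) (show (0 : ℝ) ≤ 2 * D - 2 * c - a by linarith)]
  nlinarith [mul_nonneg (show (0 : ℝ) ≤ c by linarith) (show (0 : ℝ) ≤ c - 2 by linarith)]

lemma num_x {D a b c q x y : ℝ} (ha : 0 < a) (hb : 0 < b)
    (hc : 2 ≤ c) (hq : 0 ≤ q) (h40 : 40 * (c + q) ≤ 7 * D + 4)
    (hs : a + b + c + q ≤ 3 * D - 2)
    (hR : 4 * D ^ 2 - 6 * D + 4 - 2 * q - c ^ 2 ≤ 4 * (x * (b - y) + (a - x) * y))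
    (hxy : y * a ≤ x * b) : (3 * D + 4 * (c - 1)) * a ≤ 9 * D * x := by
  by_contra hcon
  push Not at hcon
  have hD : 0 < D := by linarith
  set ρ := (3 * D + 4 * (c - 1)) / (9 * D) with hρ
  have hρD : ρ * (9 * D) = 3 * D + 4 * (c - 1) := by
    rw [hρ]; field_simp
  have hρ0 : 0 < ρ := by
    rw [hρ]; apply div_pos <;> linarith
  have hρ2 : ρ ≤ 1 / 2 := by
    rw [hρ, div_le_iff₀ (by linarith)]; linarith
  have hxρ : x < ρ * a := by
    have : x * (9 * D) < ρ * a * (9 * D) := by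
      calc x * (9 * D) = 9 * D * x := by ring
        _ < (3 * D + 4 * (c - 1)) * a := hcon
        _ = ρ * a * (9 * D) := by rw [← hρD]; ring
    exact lt_of_mul_lt_mul_right this (by linarith)
  have h2x : 2 * x ≤ a := by nlinarith
  -- a R ≤ 2 b x (a - x)
  have h1 : a * (x * (b - y) + (a - x) * y) ≤ 2 * b * (x * (a - x)) := by
    nlinarith [mul_nonneg (sub_nonneg.2 hxy) (show (0 : ℝ) ≤ a - 2 * x by linarith)]
  have h2 : x * (a - x) ≤ ρ * a * (a - ρ * a) := by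
    nlinarith [mul_nonneg (sub_nonneg.2 hxρ.le) (show (0 : ℝ) ≤ a - x - ρ * a by nlinarith)]
  have h3 : a * (4 * D ^ 2 - 6 * D + 4 - 2 * q - c ^ 2) ≤
      a * (8 * (a * b) * (ρ * (1 - ρ))) := by
    calc a * (4 * D ^ 2 - 6 * D + 4 - 2 * q - c ^ 2)
        ≤ a * (4 * (x * (b - y) + (a - x) * y)) := mul_le_mul_of_nonneg_left hR ha.le
      _ = 4 * (a * (x * (b - y) + (a - x) * y)) := by ring
      _ ≤ 4 * (2 * b * (x * (a - x))) := by linarith
      _ ≤ 4 * (2 * b * (ρ * a * (a - ρ * a))) := by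
          have := mul_le_mul_of_nonneg_left h2 hb.le
          nlinarith
      _ = a * (8 * (a * b) * (ρ * (1 - ρ))) := by ring
  have h4 : 4 * D ^ 2 - 6 * D + 4 - 2 * q - c ^ 2 ≤ 8 * (a * b) * (ρ * (1 - ρ)) :=
    le_of_mul_le_mul_left h3 ha
  have h5 : 4 * (a * b) ≤ (3 * D - 2 - c - q) ^ 2 := by
    have h6 : (a + b) ^ 2 ≤ (3 * D - 2 - c - q) ^ 2 :=
      pow_le_pow_left₀ (by linarith) (by linarith) 2
    nlinarith [sq_nonneg (a - b)]
  have h6 : 0 ≤ ρ * (1 - ρ) := mul_nonneg hρ0.le (by linarith)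
  have h7 : 4 * D ^ 2 - 6 * D + 4 - 2 * q - c ^ 2 ≤
      2 * (3 * D - 2 - c - q) ^ 2 * (ρ * (1 - ρ)) := by
    have := mul_le_mul_of_nonneg_right h5 h6
    linarith
  have h8 : 81 * D ^ 2 * (ρ * (1 - ρ)) =
      2 * ((3 * D + 4 * (c - 1)) * (3 * D - 2 * (c - 1))) := by
    have : 81 * D ^ 2 * (ρ * (1 - ρ)) = (ρ * (9 * D)) * (9 * D - ρ * (9 * D)) := by ring
    rw [this, hρD]; ring
  have h9 : 81 * D ^ 2 * (4 * D ^ 2 - 6 * D + 4 - 2 * q - c ^ 2) ≤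
      4 * (3 * D + 4 * (c - 1)) * (3 * D - 2 * (c - 1)) * (3 * D - 2 - c - q) ^ 2 := by
    calc 81 * D ^ 2 * (4 * D ^ 2 - 6 * D + 4 - 2 * q - c ^ 2)
        ≤ 81 * D ^ 2 * (2 * (3 * D - 2 - c - q) ^ 2 * (ρ * (1 - ρ))) :=
          mul_le_mul_of_nonneg_left h7 (by positivity)
      _ = 2 * (3 * D - 2 - c - q) ^ 2 * (81 * D ^ 2 * (ρ * (1 - ρ))) := by ring
      _ = _ := by rw [h8]; ring
  exact absurd (P1 hc hq h40) (not_lt.2 h9)

lemma num_final {D a b c q N I t tB : ℝ} (ha0 : 0 < a)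
    (hc : 2 ≤ c) (hq : 0 ≤ q) (h40 : 40 * (c + q) ≤ 7 * D + 4)
    (hs : a + b + c + q ≤ 3 * D - 2) (hb0 : 0 ≤ b)
    (hI : I = 2 * D ^ 2 - a - b - c - q)
    (hN1 : N + I ≤ a * b + a * (c - 1)) (hN2 : N + I ≤ a * b + b * (c - 1))
    (hN0 : 0 ≤ N)
    (ha1 : D + c - 1 ≤ a) (ha2 : a + c ≤ 2 * D - c - 1)
    (htB : (3 * D + 4 * (c - 1)) * a * tB ≤ 9 * D * N)
    (ht : t ≤ tB + (c - 1))
    (hfin : D ^ 2 ≤ D * q + (a + c) * t) : False := by
  have hD : 0 < D := by linarith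
  set Nm := D ^ 2 - 6 * D * (1 + q) + q ^ 2 - c ^ 2 + 6 * q + 2 * c with hNm
  have hN : 4 * N ≤ Nm := by
    have h1 : 4 * N ≤ (a + b) ^ 2 + 2 * (a + b) * (c + 1) + 4 * c + 4 * q - 8 * D ^ 2 := by
      nlinarith [sq_nonneg (a - b)]
    have h2 : (a + b) ^ 2 ≤ (3 * D - 2 - c - q) ^ 2 :=
      pow_le_pow_left₀ (by linarith) (by linarith) 2
    have h3 : (a + b) * (c + 1) ≤ (3 * D - 2 - c - q) * (c + 1) :=
      mul_le_mul_of_nonneg_right (by linarith) (by linarith)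
    have h4 : (3 * D - 2 - c - q) ^ 2 + 2 * ((3 * D - 2 - c - q) * (c + 1)) + 4 * c + 4 * q
        - 8 * D ^ 2 = Nm := by rw [hNm]; ring
    linarith
  have hNm0 : 0 ≤ Nm := by linarith
  set K := 4 * (3 * D + 4 * (c - 1)) with hK
  have hK0 : 0 < K := by rw [hK]; linarith
  have h1 : K * a * tB ≤ 9 * D * Nm := by
    have : 9 * D * (4 * N) ≤ 9 * D * Nm := mul_le_mul_of_nonneg_left hN (by linarith)
    have e : K * a * tB = 4 * ((3 * D + 4 * (c - 1)) * a * tB) := by rw [hK]; ring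
    rw [e]
    linarith
  have h2 : K * a * t ≤ 9 * D * Nm + K * a * (c - 1) := by
    have : K * a * t ≤ K * a * (tB + (c - 1)) :=
      mul_le_mul_of_nonneg_left ht (by positivity)
    linarith
  have h3 : K * a * (D ^ 2 - D * q) ≤ (a + c) * (9 * D * Nm + K * a * (c - 1)) := by
    have e1 : D ^ 2 - D * q ≤ (a + c) * t := by linarith
    have e2 : K * a * (D ^ 2 - D * q) ≤ K * a * ((a + c) * t) :=
      mul_le_mul_of_nonneg_left e1 (by positivity)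
    have e3 : (a + c) * (K * a * t) ≤ (a + c) * (9 * D * Nm + K * a * (c - 1)) :=
      mul_le_mul_of_nonneg_left h2 (by linarith)
    linarith
  have hP := P2 hc hq h40
  -- compare
  have hA0 : 0 < D + c - 1 := by linarith
  have hM0 : 0 ≤ 9 * D * Nm := by positivity
  have h4 : (D + c - 1) * ((a + c) * (9 * D * Nm)) ≤ a * ((D + 2 * c - 1) * (9 * D * Nm)) := by
    have : (D + c - 1) * (a + c) ≤ a * (D + 2 * c - 1) := by
      nlinarith
    calc (D + c - 1) * ((a + c) * (9 * D * Nm)) = ((D + c - 1) * (a + c)) * (9 * D * Nm) := by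
          ring
      _ ≤ (a * (D + 2 * c - 1)) * (9 * D * Nm) := mul_le_mul_of_nonneg_right this hM0
      _ = _ := by ring
  have h5 : (D + c - 1) * ((a + c) * (K * a * (c - 1))) ≤
      a * (K * (D + c - 1) * (2 * D - c - 1) * (c - 1)) := by
    have : (a + c) * (K * a * (D + c - 1) * (c - 1)) ≤
        (2 * D - c - 1) * (K * a * (D + c - 1) * (c - 1)) := by
      apply mul_le_mul_of_nonneg_right ha2
      have : 0 ≤ c - 1 := by linarith
      positivity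
    linarith
  have h6 : a * (K * (D + c - 1) * (D ^ 2 - D * q)) ≤
      a * (9 * D * (D + 2 * c - 1) * Nm + K * (D + c - 1) * (2 * D - c - 1) * (c - 1)) := by
    have e := mul_le_mul_of_nonneg_left h3 hA0.le
    linarith
  have h7 := le_of_mul_le_mul_left h6 ha0
  rw [hK, hNm] at h7
  linarith

end Pool.Agent.NH73.CS
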